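import Pool.Agent.Lib.MP_c5d73d_lc.F.Defs

/-!
# Menger-bounded and Scheepers-bounded groups in a universe

As in `Pool.Agent.Lib.MP_100a6c_lc.Defs` and `Pool.Agent.Lib.MP_c5d73d_lc.F.Defs`, all notions are
written once, for an arbitrary `Str B U`: a collection `U` with membership and equality relations
with values in a complete Boolean algebra `B`.  For `B = Prop` this is the usual meaning in the
structure `U`; for `VB B` it is the Boolean value of the notion in the Boolean-valued universe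
`V^B`.  `w` is always the set of natural numbers.
-/

universe u v w

open scoped symmDiff

namespace Pool.Agent.Lib.MP_6d445e_gt

open Pool.Agent.Lib.MP_100a6c_lc
open Pool.Agent.Lib.MP_c5d73d_lc.F (isOm isInter)

variable {B : Type v} {U : Type w} [CompleteBooleanAlgebra B] (S : Str B U)

/-! ## Groups -/

/-- `x * y = z`, where the multiplication `m` is a set of ordered pairs `((x, y), z)`. -/
def op (m x y z : U) : B := ⨆ p, S.isPair p x y ⊓ S.rel m p z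

/-- `m` is a group operation on the set `G`, with identity `e`. -/
def isGrp (G m e : U) : B :=
  (⨅ x, ⨅ y, ⨅ z, op S m x y z ⇨ S.mem x G ⊓ S.mem y G ⊓ S.mem z G) ⊓
  (⨅ x, ⨅ y, S.mem x G ⊓ S.mem y G ⇨ ⨆ z, op S m x y z) ⊓
  (⨅ x, ⨅ y, ⨅ z, ⨅ z', op S m x y z ⊓ op S m x y z' ⇨ S.eq z z') ⊓
  (⨅ x, ⨅ y, ⨅ z, ⨅ a, ⨅ b, ⨅ c, ⨅ d,
    op S m x y a ⊓ op S m a z c ⊓ op S m y z b ⊓ op S m x b d ⇨ S.eq c d) ⊓
  S.mem e G ⊓ (⨅ x, S.mem x G ⇨ op S m e x x ⊓ op S m x e x) ⊓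
  ⨅ x, S.mem x G ⇨ ⨆ y, op S m x y e ⊓ op S m y x e

/-! ## Topologies -/

/-- `t` is a topology on `G` (the set of the open sets). -/
def isTopo (G t : U) : B :=
  (⨅ A, S.mem A t ⇨ S.sub A G) ⊓ S.mem G t ⊓
  (⨅ A, ⨅ A', ⨅ C, S.mem A t ⊓ S.mem A' t ⊓ isInter S C A A' ⇨ S.mem C t) ⊓
  ⨅ D, ⨅ C, S.sub D t ⊓ (⨅ z, S.mem z C ⇔ ⨆ A, S.mem A D ⊓ S.mem z A) ⇨ S.mem C t

/-- The topology `t` on `G` is Hausdorff. -/
def isHaus (G t : U) : B :=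
  ⨅ x, ⨅ y, S.mem x G ⊓ S.mem y G ⊓ (S.eq x y)ᶜ ⇨
    ⨆ A, ⨆ A', S.mem A t ⊓ S.mem A' t ⊓ S.mem x A ⊓ S.mem y A' ⊓
      ⨅ z, (S.mem z A ⊓ S.mem z A')ᶜ

/-- The topology `t` is second countable: it has a countable base `b`. -/
def isSC (w t : U) : B :=
  ⨆ b, S.sub b t ⊓ S.leCard b w ⊓
    ⨅ A, ⨅ x, S.mem A t ⊓ S.mem x A ⇨ ⨆ C, S.mem C b ⊓ S.mem x C ⊓ S.sub C A

/-- The multiplication is continuous. -/
def isCMul (m t : U) : B :=
  ⨅ x, ⨅ y, ⨅ z, ⨅ A, op S m x y z ⊓ S.mem A t ⊓ S.mem z A ⇨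
    ⨆ C, ⨆ D, S.mem C t ⊓ S.mem D t ⊓ S.mem x C ⊓ S.mem y D ⊓
      ⨅ x', ⨅ y', ⨅ z', S.mem x' C ⊓ S.mem y' D ⊓ op S m x' y' z' ⇨ S.mem z' A

/-- The inversion is continuous. -/
def isCInv (m e t : U) : B :=
  ⨅ x, ⨅ y, ⨅ A, op S m x y e ⊓ S.mem A t ⊓ S.mem y A ⇨
    ⨆ C, S.mem C t ⊓ S.mem x C ⊓
      ⨅ x', ⨅ y', S.mem x' C ⊓ op S m x' y' e ⇨ S.mem y' A

/-- `(G, m, e, t)` is a second countable Hausdorff topological group. -/
def isTG (w G m e t : U) : B :=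
  isGrp S G m e ⊓ isTopo S G t ⊓ isCMul S m t ⊓ isCInv S m e t ⊓ isHaus S G t ⊓ isSC S w t

/-! ## Selection principles -/

/-- `F` is finite. -/
def isFin (w F : U) : B := ⨆ n, S.mem n w ⊓ S.leCard F n

/-- `F` is a finite subset of `G`. -/
def fsub (w F G : U) : B := S.sub F G ⊓ isFin S w F

/-- `x ∈ F * A`. -/
def tr (m F A x : U) : B := ⨆ y, ⨆ u, S.mem y F ⊓ S.mem u A ⊓ op S m y u x

/-- `A` is an open neighbourhood of `e`. -/
def isNb (t e A : U) : B := S.mem A t ⊓ S.mem e A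

/-- `f` is a sequence `n ↦ f(n)`, `n ∈ w`. -/
def isSeq (w f : U) : B :=
  (⨅ n, S.mem n w ⇨ ⨆ A, S.rel f n A) ⊓ ⨅ n, ⨅ A, ⨅ A', S.rel f n A ⊓ S.rel f n A' ⇨ S.eq A A'

/-- `g` is a sequence of finite subsets of `G`. -/
def isFSeq (w G g : U) : B :=
  isSeq S w g ⊓ ⨅ n, ⨅ F, S.mem n w ⊓ S.rel g n F ⇨ fsub S w F G

/-- Menger-bounded, `S_fin(O_nbd, O)`: for every sequence of open neighbourhoods `f(n) ≠ G` of `e`
there are finite subsets `g(n)` of `G` such that `G` is the union of the sets `g(n) * f(n)`. -/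
def MB (w G m e t : U) : B :=
  ⨅ f, isSeq S w f ⊓ (⨅ n, ⨅ A, S.mem n w ⊓ S.rel f n A ⇨ isNb S t e A ⊓ (S.eq A G)ᶜ) ⇨
    ⨆ g, isFSeq S w G g ⊓ ⨅ x, S.mem x G ⇨
      ⨆ n, ⨆ A, ⨆ F, S.mem n w ⊓ S.rel f n A ⊓ S.rel g n F ⊓ tr S m F A x

/-- Scheepers-bounded, `S_1(Ω_nbd, Ω)`: for every sequence of open neighbourhoods `f(n)` of `e` with
`F * f(n) ≠ G` for all finite subsets `F` of `G`, there are finite subsets `g(n)` of `G` such that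
every finite subset of `G` is contained in one of the sets `g(n) * f(n)`. -/
def SB (w G m e t : U) : B :=
  ⨅ f, isSeq S w f ⊓ (⨅ n, ⨅ A, S.mem n w ⊓ S.rel f n A ⇨ isNb S t e A ⊓
      ⨅ F, fsub S w F G ⇨ ⨆ x, S.mem x G ⊓ (tr S m F A x)ᶜ) ⇨
    ⨆ g, isFSeq S w G g ⊓ ⨅ E, fsub S w E G ⇨
      ⨆ n, ⨆ A, ⨆ F, S.mem n w ⊓ S.rel f n A ⊓ S.rel g n F ⊓ ⨅ x, S.mem x E ⇨ tr S m F A x

/-- Every second countable Hausdorff topological group (equivalently, every separable metrizable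
topological group) which is Menger-bounded is Scheepers-bounded. -/
def MBSB : B :=
  ⨅ w, ⨅ G, ⨅ m, ⨅ e, ⨅ t, isOm S w ⊓ isTG S w G m e t ⊓ MB S w G m e t ⇨ SB S w G m e t

end Pool.Agent.Lib.MP_6d445e_gt
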