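import Pool.Agent.Lib.MP_6d445e_gt.V.Defs
import Pool.Agent.Lib.MP_6d445e_gt.Iface2
import Pool.Agent.Lib.MP_100a6c_lc.H36.Omega
import Pool.Agent.Lib.MP_100a6c_lc.Base5

/-!
# Statements of the modules, part 3: groups in the Boolean-valued universe

The proofs are in `Paper3.md`.
-/

universe u v w

open Cardinal Filter

open scoped symmDiff

namespace Pool.Agent.Lib.MP_6d445e_gt

open Pool.Agent.Lib.MP_100a6c_lc
open Pool.Agent.Lib.MP_c5d73d_lc.F (isOm isInter ZFC)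
open Pool.Agent.Lib.MP_e6fef2_lc (IsCE PE)
open BName
open H36 (om nn)

/-! ## Boolean-valued groups -/

/-- A group with `B`-valued equality, on a type `Λ` of names of elements. -/
structure BG (B : Type u) (Λ : Type v) where
  eq : Λ → Λ → B
  mul : Λ → Λ → Λ
  inv : Λ → Λ
  one : Λ

section

variable {B : Type u} [CompleteBooleanAlgebra B] {Λ : Type v}

/-- The group axioms hold with value at least `Γ`. -/
structure BGR (Γ : B) (D : BG B Λ) : Prop where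
  refl : ∀ x, Γ ≤ D.eq x x
  symm : ∀ x y, Γ ⊓ D.eq x y ≤ D.eq y x
  trans : ∀ x y z, Γ ⊓ D.eq x y ⊓ D.eq y z ≤ D.eq x z
  mulc : ∀ x x' y y', Γ ⊓ D.eq x x' ⊓ D.eq y y' ≤ D.eq (D.mul x y) (D.mul x' y')
  assoc : ∀ x y z, Γ ≤ D.eq (D.mul (D.mul x y) z) (D.mul x (D.mul y z))
  one_mul : ∀ x, Γ ≤ D.eq (D.mul D.one x) x
  inv_mul : ∀ x, Γ ≤ D.eq (D.mul (D.inv x) x) D.one

/-- `U n` is a decreasing sequence of neighbourhoods of `1`, and `d i` a dense sequence. -/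
structure BGU (Γ : B) (D : BG B Λ) (U : ℕ → Λ → B) (d : ℕ → Λ) : Prop where
  congr : ∀ n x y, Γ ⊓ D.eq x y ⊓ U n x ≤ U n y
  one : ∀ n, Γ ≤ U n D.one
  mul : ∀ n x y, Γ ⊓ U (n + 1) x ⊓ U (n + 1) y ≤ U n (D.mul x y)
  mulinv : ∀ n x y, Γ ⊓ U (n + 1) x ⊓ U (n + 1) y ≤ U n (D.mul x (D.inv y))
  dns : ∀ n x, Γ ≤ ⨆ i, U n (D.mul (D.inv (d i)) x)
  cnj : ∀ c i, Γ ≤ ⨆ n, ⨅ x, U n x ⇨ U c (D.mul (D.mul (D.inv (d i)) x) (d i))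

/-- The Boolean value of `x ∈ d i * U n`. -/
def rl (D : BG B Λ) (U : ℕ → Λ → B) (d : ℕ → Λ) (x : Λ) (n i : ℕ) : B :=
  U n (D.mul (D.inv (d i)) x)

/-- The group is Menger-bounded. -/
def BMB (Γ : B) (D : BG B Λ) (U : ℕ → Λ → B) (d : ℕ → Λ) : Prop :=
  ∀ ν, IsFN ν → (∀ᶠ h in ae B, StrictMono (fv ν h)) → ∃ F, IsFN F ∧ ∀ x,
    ∀ᶠ h in ae B, Γ ∈ h → ∀ m, ∃ n, m ≤ n ∧ fv (rl D U d x) h (fv ν h n) ≤ fv F h n

/-- The group is not Scheepers-bounded. -/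
def BFD (Γ : B) (D : BG B Λ) (U : ℕ → Λ → B) (d : ℕ → Λ) : Prop :=
  ∀ F, IsFN F → ∀ a, a ≠ ⊥ → a ≤ Γ → ∃ b, b ≠ ⊥ ∧ b ≤ a ∧ ∃ E : Finset Λ,
    ∀ᶠ h in ae B, b ∈ h → ∀ n, ∃ x ∈ E, fv F h n ≤ fv (rl D U d x) h n

end

/-- GRQ: the quotient by an ultrafilter is a group. -/
def GrqStatement : Prop := ∀ (B : Type u) [CompleteBooleanAlgebra B] (Λ : Type v) (Γ : B)
  (D : BG B Λ), BGR Γ D → ∀ h : Ult B, Γ ∈ h → ∃ (Q : Type v) (_ : Group Q) (π : Λ → Q),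
    Function.Surjective π ∧ (∀ x y, π x = π y ↔ D.eq x y ∈ h) ∧
    (∀ x y, π (D.mul x y) = π x * π y) ∧ (∀ x, π (D.inv x) = (π x)⁻¹) ∧ π D.one = 1

/-- GDX: the data of a group. -/
def GdxStatement : Prop := ∀ (B : Type u) [CompleteBooleanAlgebra B] (Λ : Type v) (Γ : B)
  (D : BG B Λ) (U : ℕ → Λ → B) (d : ℕ → Λ), BGR Γ D → BGU Γ D U d → BMB Γ D U d →
  BFD Γ D U d → ∃ D' : GD B Λ, GDP Γ D'

/-! ## Groups in the Boolean-valued universe -/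

section

variable {B : Type u} [CompleteBooleanAlgebra B]

/-- Names of elements of `G`. -/
abbrev Lm (Γ : B) (G : BName B) : Type (u + 1) := {x : BName B // Γ ≤ bmem x G}

/-- `D` is the group `(G, m, e)` of the Boolean-valued universe. -/
structure VGr (Γ : B) (G m e : BName B) (D : BG B (Lm Γ G)) : Prop where
  eq : ∀ x y, D.eq x y = beq x.1 y.1
  one : D.one.1 = e
  mul : ∀ x y z, Γ ⊓ op (VB B) m x.1 y.1 z = Γ ⊓ beq z (D.mul x y).1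
  inv : ∀ x, Γ ≤ op (VB B) m x.1 (D.inv x).1 e
  gr : BGR Γ D

/-- The hypotheses on a topological group in the Boolean-valued universe. -/
structure VHyp (Γ : B) (G m e t : BName B) : Prop where
  grp : Γ ≤ isGrp (VB B) G m e
  top : Γ ≤ isTopo (VB B) G t
  cm : Γ ≤ isCMul (VB B) m t
  ci : Γ ≤ isCInv (VB B) m e t
  sc : Γ ≤ isSC (VB B) (check om) t

/-- The name of the set `{d i : p i}`. -/
def dset {Γ : B} {G : BName B} (d : ℕ → Lm Γ G) (p : ℕ → B) : BName B :=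
  mk (ULift.{u} ℕ) (fun i => (d i.down).1) fun i => p i.down

end

/-- VGR: the operations on names. -/
def VgrStatement : Prop := ∀ (B : Type u) [CompleteBooleanAlgebra B] (Γ : B) (G m e : BName B),
  Γ ≤ isGrp (VB B) G m e → ∃ D, VGr Γ G m e D

/-- VNB: a decreasing base of neighbourhoods. -/
def VnbStatement : Prop := ∀ (B : Type u) [CompleteBooleanAlgebra B] (Γ : B)
  (G m e t : BName B) (D : BG B (Lm Γ G)), VHyp Γ G m e t → VGr Γ G m e D →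
  ∀ V : ℕ → BName B, (∀ n, Γ ≤ isNb (VB B) t e (V n)) → ∃ U : ℕ → BName B,
    (∀ n, Γ ≤ isNb (VB B) t e (U n)) ∧ (∀ n, Γ ≤ (VB B).sub (U n) (V n)) ∧
    (∀ n x y, Γ ⊓ bmem x.1 (U (n + 1)) ⊓ bmem y.1 (U (n + 1)) ≤
      bmem (D.mul x y).1 (U n) ⊓ bmem (D.mul x (D.inv y)).1 (U n)) ∧
    ∀ A, Γ ⊓ isNb (VB B) t e A ≤ ⨆ n, (VB B).sub (U n) A

/-- VDN: a dense sequence. -/
def VdnStatement : Prop := ∀ (B : Type u) [CompleteBooleanAlgebra B] (Γ : B)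
  (G m e t : BName B), VHyp Γ G m e t → ∃ d : ℕ → Lm Γ G, ∀ A x,
    Γ ⊓ bmem A t ⊓ bmem x A ≤ ⨆ i, bmem (d i).1 A

/-- VBU: the sequences `U`, `d`. -/
def VbuStatement : Prop := ∀ (B : Type u) [CompleteBooleanAlgebra B] (Γ : B)
  (G m e t : BName B) (D : BG B (Lm Γ G)), VHyp Γ G m e t → VGr Γ G m e D →
  ∀ (U : ℕ → BName B) (d : ℕ → Lm Γ G), (∀ n, Γ ≤ isNb (VB B) t e (U n)) →
    (∀ n x y, Γ ⊓ bmem x.1 (U (n + 1)) ⊓ bmem y.1 (U (n + 1)) ≤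
      bmem (D.mul x y).1 (U n) ⊓ bmem (D.mul x (D.inv y)).1 (U n)) →
    (∀ A, Γ ⊓ isNb (VB B) t e A ≤ ⨆ n, (VB B).sub (U n) A) →
    (∀ A x, Γ ⊓ bmem A t ⊓ bmem x A ≤ ⨆ i, bmem (d i).1 A) →
      BGU Γ D (fun n x => bmem x.1 (U n)) d

/-- VFI: finite sets. -/
def VfiStatement : Prop := ∀ (B : Type u) [CompleteBooleanAlgebra B] (Γ : B) (G : BName B),
  (∀ F, Γ ≤ fsub (VB B) (check om) F G → ∀ φ : ℕ → BName B → B, (∀ i, Ext (φ i)) →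
    (∀ x, Γ ⊓ bmem x G ≤ ⨆ i, φ i x) →
      Γ ≤ ⨆ j : ℕ, ⨅ x, bmem x F ⇨ ⨆ i : ℕ, ⨆ _ : i ≤ j, φ i x) ∧
  (∀ F, Γ ≤ ⨆ x, bmem x G → Γ ≤ fsub (VB B) (check om) F G → ∀ a, a ≠ ⊥ → a ≤ Γ →
    ∃ b, b ≠ ⊥ ∧ b ≤ a ∧ ∃ E : Finset (Lm Γ G), ∀ x, b ⊓ bmem x F ≤ ⨆ y ∈ E, beq x y.1) ∧
  ∀ (d : ℕ → Lm Γ G) (p : ℕ → B), (Γ ≤ ⨆ n : ℕ, ⨅ i : ℕ, ⨅ _ : n ≤ i, (p i)ᶜ) →
    Γ ≤ fsub (VB B) (check om) (dset d p) G

/-- VMB: the group is Menger-bounded. -/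
def VmbStatement : Prop := ∀ (B : Type u) [CompleteBooleanAlgebra B] (Γ : B)
  (G m e t : BName B) (D : BG B (Lm Γ G)), VHyp Γ G m e t → VGr Γ G m e D →
  Γ ≤ MB (VB B) (check om) G m e t → ∀ (U : ℕ → BName B) (d : ℕ → Lm Γ G),
    (∀ n, Γ ≤ isNb (VB B) t e (U n)) → (∀ n, Γ ≤ (beq (U n) G)ᶜ) →
    BGU Γ D (fun n x => bmem x.1 (U n)) d → BMB Γ D (fun n x => bmem x.1 (U n)) d

/-- VFD: the group is not Scheepers-bounded. -/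
def VfdStatement : Prop := ∀ (B : Type u) [CompleteBooleanAlgebra B] (Γ : B)
  (G m e t : BName B) (D : BG B (Lm Γ G)), VHyp Γ G m e t → VGr Γ G m e D →
  Γ ≤ (SB (VB B) (check om) G m e t)ᶜ → ∃ V : ℕ → BName B,
    (∀ n, Γ ≤ isNb (VB B) t e (V n)) ∧ (∀ n, Γ ≤ (beq (V n) G)ᶜ) ∧
    ∀ (U : ℕ → BName B) (d : ℕ → Lm Γ G), (∀ n, Γ ≤ (VB B).sub (U n) (V n)) →
      BGU Γ D (fun n x => bmem x.1 (U n)) d → BFD Γ D (fun n x => bmem x.1 (U n)) d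

/-- There is no counterexample with names in `B`. -/
def NoGD (B : Type u) [CompleteBooleanAlgebra B] : Prop :=
  ∀ (Λ : Type (u + 1)) (Γ : B) (D : GD B Λ), GDP Γ D → Γ = ⊥

/-- VASS: the assembly. -/
def VassStatement : Prop := ∀ (B : Type u) [CompleteBooleanAlgebra B], NoGD B → MBSB (VB B) = ⊤

/-- VLOS: two-valued models. -/
def VlosStatement : Prop := ∀ (B : Type u) [CompleteBooleanAlgebra B], (⊥ : B) ≠ ⊤ →
  ZFC (VB B) = ⊤ → MBSB (VB B) = ⊤ →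
    ∃ (M : Type (u + 1)) (E : M → M → Prop),
      ZFC (⟨E, Eq⟩ : Str Prop M) ∧ MBSB (⟨E, Eq⟩ : Str Prop M)

end Pool.Agent.Lib.MP_6d445e_gt
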